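import Pool.Agent.Lib.MP_87323d_lc.Medial
import Pool.Agent.Lib.MP_87323d_lc.BLimit

/-!
Continuous linear functionals on the space of bounded sequences and non-measurable sets of reals: a
functional is medial, that is, it commutes with the expectation on all probability spaces, if and only
if the sets of reals that are defined from it and from a sequence of Borel sets are measurable.

The proof. On the sequences of bounded measurable functions on the torus `𝕋²` we consider the
functional `T f = ∫ φ (f_0(x), f_1(x), ...) dx`. As the function `φ (f_0, f_1, ...)` is measurable,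
`T f` does not change if all `f_n` are composed with the same measure preserving map. The shears
`(x, y) ↦ (x + y, y)` and `(x, y) ↦ (x, x + y)` have a spectral gap on `L²(𝕋²)`, by Fourier series and
a ping-pong argument on `ℤ² ∖ 0`. So there is an inequality for integrable functions `h`,
`‖h - ∫ h‖₁ ≤ ε ‖h‖₁ + C(ε) (‖h - h ∘ u‖₁ + ‖h - h ∘ v‖₁)`, and by duality every function `f` with
`|f| ≤ 1` and mean zero is a sum `(g - g ∘ u) + (k - k ∘ v) + e + r` with `|g|, |k| ≤ C(ε)`, `|e| ≤ ε`
and `‖r‖₁` as small as we like. The bounds do not depend on `f`, so this can be done for all members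
of a sequence, and `T f = 0` if all `f_n` have mean zero.
-/

set_option autoImplicit false

namespace Pool.Agent.Results.MP_87323d_lc.MeasurableFunctionals

open MeasureTheory Pool.Agent.MP_87323d_lc

/-- Let `φ` be a continuous linear functional on the space `ℓ^∞` of bounded real sequences.

1. The sets of reals `{x | a < φ (1_{E_0}(x), 1_{E_1}(x), ...)}`, for all sequences of Borel sets `E_n`
of reals and all real numbers `a`, are Lebesgue measurable if and only if `φ` is medial: for every
probability space and every uniformly bounded sequence of random variables `f_n`, the function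
`φ (f_0, f_1, ...)` is measurable with respect to the completed probability, and its expectation is
`φ` of the sequence of the expectations of the `f_n`.

2. If `φ` is not given by an element of `ℓ^1`, then one of these sets of reals is not Lebesgue
measurable, or there is a Banach limit which is medial. -/
theorem result (φ : Linf →L[ℝ] ℝ) :
    (SetsMeasurable φ ↔ Medial φ) ∧
    ((¬ ∃ a : ℕ → ℝ, Summable a ∧ ∀ x : Linf, φ x = ∑' n, a n * x n) →
      (∃ (E : ℕ → Set ℝ) (a : ℝ), (∀ n, MeasurableSet (E n)) ∧
        ¬ NullMeasurableSet {x : ℝ | a < φ (seqOf fun n => (E n).indicator (fun _ => 1) x)} volume) ∨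
      ∃ L : Linf →L[ℝ] ℝ, IsBanachLimit L ∧ Medial L) := by
  refine ⟨⟨medial_of_setsMeasurable, setsMeasurable_of_medial⟩, fun hne => ?_⟩
  by_cases h : SetsMeasurable φ
  · exact Or.inr (exists_banach_limit (medial_of_setsMeasurable h) hne)
  · left
    unfold SetsMeasurable at h
    push Not at h
    obtain ⟨E, hE, a, ha⟩ := h
    exact ⟨E, a, hE, ha⟩

end Pool.Agent.Results.MP_87323d_lc.MeasurableFunctionals
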